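import Mathlib

/-!
# Bounded-length Maker wins in the generalized van der Waerden game

For a set `S` of `n` natural numbers we map the cube `S ^ m`, `m = n ^ 2`, injectively into the natural
numbers by `x ↦ ∑ D ^ k * x k` with `D > max S`. Combinatorial lines are mapped to copies of `S`. The
cube has many lines, any two points lie on at most one common line, and a potential argument shows
that Maker occupies a line before the cube is exhausted, whatever Breaker does.
-/

set_option autoImplicit false

namespace Pool.Agent.Results.MP_3e1131_co.BoundedLength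

/-- The finite set `M` contains a copy `a S + b` of `S`, with integers `a ≥ 1` and `b`. -/
def HasCopy (S M : Finset ℕ) : Prop :=
  ∃ a b : ℤ, 1 ≤ a ∧ ∀ s ∈ S, ∃ x ∈ M, (x : ℤ) = a * (s : ℤ) + b

/-- Maker, who has claimed the numbers in `M` while Breaker has claimed those in `B`, and who is to
move, has a strategy that wins (his claimed numbers contain a copy of `S`) against every play of
Breaker using at most `N` further selections of Maker. -/
def MakerWins (S : Finset ℕ) : ℕ → Finset ℕ → Finset ℕ → Prop
  | 0, M, _ => HasCopy S M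
  | N + 1, M, B => HasCopy S M ∨ ∃ x, x ∉ M ∪ B ∧
      (HasCopy S (insert x M) ∨
        ∀ y, y ∉ insert x M ∪ B → MakerWins S N (insert x M) (insert y B))

section Potential

variable {L : Type*} (I : Finset L) (A : L → Finset ℕ)

/-- The potential of a position: sum of `2 ^ |A f ∩ M|` over the sets `A f` that Breaker has not
touched. -/
def pot (M B : Finset ℕ) : ℕ := ∑ f ∈ I with Disjoint (A f) B, 2 ^ (A f ∩ M).card

/-- The sum of `2 ^ |A f ∩ M|` over the untouched sets that contain `x`. -/
def gain (M B : Finset ℕ) (x : ℕ) : ℕ :=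
  ∑ f ∈ I with (Disjoint (A f) B ∧ x ∈ A f), 2 ^ (A f ∩ M).card

/-- The sum of `2 ^ |A f ∩ M|` over the untouched sets that contain `x` and `y`. -/
def pair (M B : Finset ℕ) (x y : ℕ) : ℕ :=
  ∑ f ∈ I with (Disjoint (A f) B ∧ x ∈ A f ∧ y ∈ A f), 2 ^ (A f ∩ M).card

theorem round (M B : Finset ℕ) (x y : ℕ) (hx : x ∉ M) :
    pot I A (insert x M) (insert y B) + gain I A M B y + pair I A M B x y =
      pot I A M B + gain I A M B x := by
  unfold pot gain pair
  simp only [Finset.sum_filter]
  rw [← Finset.sum_add_distrib, ← Finset.sum_add_distrib, ← Finset.sum_add_distrib]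
  refine Finset.sum_congr rfl fun f _ => ?_
  have h1 : Disjoint (A f) (insert y B) ↔ Disjoint (A f) B ∧ y ∉ A f := by
    rw [Finset.disjoint_insert_right]; tauto
  have h2 : x ∈ A f → (A f ∩ insert x M).card = (A f ∩ M).card + 1 := by
    intro h
    rw [Finset.inter_insert_of_mem h, Finset.card_insert_of_notMem]
    simp [hx]
  have h3 : x ∉ A f → (A f ∩ insert x M).card = (A f ∩ M).card := by
    intro h
    rw [Finset.inter_insert_of_notMem h]
  by_cases hd : Disjoint (A f) B <;> by_cases hy : y ∈ A f <;> by_cases hxA : x ∈ A f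
  all_goals simp only [h1, hd, hy, hxA, and_true, and_false, not_true,
    not_false_iff, if_true, if_false, h2, h3]
  all_goals omega

end Potential

/-- A Beck-type criterion. -/
theorem makerWins_of_pot {L : Type*} (I : Finset L) (A : L → Finset ℕ)
    (S V : Finset ℕ) (n : ℕ)
    (hV : ∀ f ∈ I, A f ⊆ V) (hcard : ∀ f ∈ I, (A f).card = n)
    (hcopy : ∀ f ∈ I, ∀ M : Finset ℕ, A f ⊆ M → HasCopy S M)
    (hpair : ∀ x y, x ≠ y → ∀ f ∈ I, ∀ g ∈ I, x ∈ A f → y ∈ A f → x ∈ A g → y ∈ A g → f = g) :
    ∀ (k : ℕ) (M B : Finset ℕ), (V \ (M ∪ B)).card ≤ k → Disjoint M B →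
      k * 2 ^ n < 4 * pot I A M B → MakerWins S k M B := by
  have hend : ∀ M B : Finset ℕ, V \ (M ∪ B) = ∅ → 0 < pot I A M B → HasCopy S M := by
    intro M B h0 hpos
    unfold pot at hpos
    obtain ⟨f, hf, -⟩ := Finset.exists_ne_zero_of_sum_ne_zero (Nat.pos_iff_ne_zero.1 hpos)
    rw [Finset.mem_filter] at hf
    refine hcopy f hf.1 M ?_
    intro x hx
    have hxV := hV f hf.1 hx
    have hx2 : x ∈ M ∪ B := by
      by_contra hcon
      have : x ∈ V \ (M ∪ B) := Finset.mem_sdiff.2 ⟨hxV, hcon⟩
      rw [h0] at this
      simp at this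
    rcases Finset.mem_union.1 hx2 with h | h
    · exact h
    · exact absurd h (Finset.disjoint_left.1 hf.2 hx)
  intro k
  induction k with
  | zero =>
    intro M B hc _ hp
    unfold MakerWins
    refine hend M B ?_ (by omega)
    exact Finset.card_eq_zero.1 (by omega)
  | succ k ih =>
    intro M B hc hdis hp
    unfold MakerWins
    by_cases hemp : V \ (M ∪ B) = ∅
    · exact Or.inl (hend M B hemp (by
        have : 0 ≤ (k + 1) * 2 ^ n := Nat.zero_le _
        omega))
    · right
      obtain ⟨x, hx, hmax⟩ := Finset.exists_max_image (V \ (M ∪ B)) (gain I A M B)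
        (Finset.nonempty_iff_ne_empty.2 hemp)
      rw [Finset.mem_sdiff] at hx
      refine ⟨x, hx.2, Or.inr ?_⟩
      intro y hy
      have hxM : x ∉ M := fun h => hx.2 (Finset.mem_union_left _ h)
      have hxB : x ∉ B := fun h => hx.2 (Finset.mem_union_right _ h)
      have hyx : y ≠ x := fun h => hy (by rw [h]; simp)
      have hyM : y ∉ M := fun h => hy (by simp [h])
      have hyB : y ∉ B := fun h => hy (by simp [h])
      have hround := round I A M B x y hxM
      have hgain : gain I A M B y ≤ gain I A M B x := by
        by_cases hyV : y ∈ V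
        · exact hmax y (Finset.mem_sdiff.2 ⟨hyV, by simp [hyM, hyB]⟩)
        · have : gain I A M B y = 0 := by
            unfold gain
            refine Finset.sum_eq_zero fun f hf => ?_
            rw [Finset.mem_filter] at hf
            exact absurd (hV f hf.1 hf.2.2) hyV
          omega
      have hpr : 4 * pair I A M B x y ≤ 2 ^ n := by
        unfold pair
        have hle : (I.filter (fun f => Disjoint (A f) B ∧ x ∈ A f ∧ y ∈ A f)).card ≤ 1 := by
          rw [Finset.card_le_one]
          intro f hf g hg
          rw [Finset.mem_filter] at hf hg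
          exact hpair x y (Ne.symm hyx) f hf.1 g hg.1 hf.2.2.1 hf.2.2.2 hg.2.2.1 hg.2.2.2
        rcases Finset.eq_empty_or_nonempty
          (I.filter (fun f => Disjoint (A f) B ∧ x ∈ A f ∧ y ∈ A f)) with h | h
        · rw [h]; simp
        · obtain ⟨f, h⟩ := Finset.card_eq_one.1 (le_antisymm hle (Finset.card_pos.2 h))
          rw [h, Finset.sum_singleton]
          have hfm : f ∈ I.filter (fun f => Disjoint (A f) B ∧ x ∈ A f ∧ y ∈ A f) := by
            rw [h]; simp
          rw [Finset.mem_filter] at hfm
          have hsub : A f ∩ M ⊆ ((A f).erase x).erase y := by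
            intro z hz
            rw [Finset.mem_inter] at hz
            rw [Finset.mem_erase, Finset.mem_erase]
            refine ⟨?_, ?_, hz.1⟩
            · rintro rfl; exact hyM hz.2
            · rintro rfl; exact hxM hz.2
          have hc2 : (((A f).erase x).erase y).card = n - 1 - 1 := by
            rw [Finset.card_erase_of_mem, Finset.card_erase_of_mem hfm.2.2.1, hcard f hfm.1]
            exact Finset.mem_erase.2 ⟨hyx, hfm.2.2.2⟩
          have hn2 : 2 ≤ n := by
            rw [← hcard f hfm.1]
            have : ({x, y} : Finset ℕ) ⊆ A f := by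
              intro z hz
              simp only [Finset.mem_insert, Finset.mem_singleton] at hz
              rcases hz with rfl | rfl
              · exact hfm.2.2.1
              · exact hfm.2.2.2
            have h2 := Finset.card_le_card this
            rwa [Finset.card_pair (Ne.symm hyx)] at h2
          have hle2 : (A f ∩ M).card ≤ n - 2 := by
            have := Finset.card_le_card hsub
            omega
          calc 4 * 2 ^ (A f ∩ M).card ≤ 4 * 2 ^ (n - 2) :=
                Nat.mul_le_mul_left _ (Nat.pow_le_pow_right (by norm_num) hle2)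
            _ = 2 ^ n := by
                have : n = (n - 2) + 2 := by omega
                conv_rhs => rw [this, pow_add]
                ring
      refine ih (insert x M) (insert y B) ?_ ?_ ?_
      · have hlt : (V \ (insert x M ∪ insert y B)).card < (V \ (M ∪ B)).card := by
          apply Finset.card_lt_card
          refine Finset.ssubset_iff_subset_ne.2 ⟨?_, ?_⟩
          · intro z hz
            simp only [Finset.mem_sdiff, Finset.mem_union, Finset.mem_insert, not_or] at hz ⊢
            exact ⟨hz.1, hz.2.1.2, hz.2.2.2⟩
          · intro heq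
            have : x ∈ V \ (insert x M ∪ insert y B) := by
              rw [heq]; exact Finset.mem_sdiff.2 hx
            simp at this
        omega
      · rw [Finset.disjoint_insert_left, Finset.disjoint_insert_right]
        simp only [Finset.mem_insert, not_or]
        exact ⟨⟨Ne.symm hyx, hxB⟩, hyM, hdis⟩
      · have hexp : (k + 1) * 2 ^ n = k * 2 ^ n + 2 ^ n := by ring
        omega

section Cube

variable (S : Finset ℕ)

/-- The map from the cube `S ^ m` to the natural numbers. -/
def phi (m D : ℕ) (x : Fin m → S) : ℕ := ∑ k : Fin m, D ^ (k : ℕ) * (x k : ℕ)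

theorem phi_inj (m D : ℕ) (hD : ∀ s ∈ S, s < D) : Function.Injective (phi S m D) := by
  induction m with
  | zero => intro x y _; exact Subsingleton.elim _ _
  | succ m ih =>
    intro x y hxy
    unfold phi at hxy
    rw [Fin.sum_univ_succ, Fin.sum_univ_succ] at hxy
    simp only [Fin.val_zero, pow_zero, one_mul, Fin.val_succ, pow_succ'] at hxy
    have e : ∀ z : Fin (m + 1) → S, ∑ i : Fin m, D * D ^ (i : ℕ) * (z i.succ : ℕ) =
        D * phi S m D (fun i => z i.succ) := by
      intro z
      unfold phi
      rw [Finset.mul_sum]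
      exact Finset.sum_congr rfl fun i _ => by ring
    rw [e x, e y] at hxy
    have hx0 := hD _ (x 0).2
    have hy0 := hD _ (y 0).2
    have h0 : (x 0 : ℕ) = (y 0 : ℕ) := by
      have h1 := congrArg (fun t => t % D) hxy
      simp only [Nat.add_mul_mod_self_left] at h1
      rwa [Nat.mod_eq_of_lt hx0, Nat.mod_eq_of_lt hy0] at h1
    have h1 : phi S m D (fun i => x i.succ) = phi S m D (fun i => y i.succ) := by
      rw [h0] at hxy
      have : D * phi S m D (fun i => x i.succ) = D * phi S m D (fun i => y i.succ) := by omega
      exact Nat.eq_of_mul_eq_mul_left (by omega) this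
    have h2 := ih h1
    funext i
    refine Fin.cases ?_ (fun j => ?_) i
    · exact Subtype.ext h0
    · exact congrFun h2 j

/-- The point of the line `f` (whose active coordinates are those where `f` is `none`) with
parameter `a`. -/
def pt {m : ℕ} (f : Fin m → Option S) (a : S) : Fin m → S := fun i => (f i).getD a

/-- The images of the points of the line `f`. -/
def lineSet (m D : ℕ) (f : Fin m → Option S) : Finset ℕ :=
  Finset.univ.image (fun a : S => phi S m D (pt S f a))

/-- The lines: functions to `Option S` which take the value `none`. -/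
def lines (m : ℕ) : Finset (Fin m → Option S) := Finset.univ.filter (fun f => ∃ i, f i = none)

theorem pt_inj {m : ℕ} {f : Fin m → Option S} (hf : ∃ i, f i = none) :
    Function.Injective (pt S f) := by
  obtain ⟨i, hi⟩ := hf
  intro a b hab
  have := congrFun hab i
  unfold pt at this
  rw [hi] at this
  simpa using this

theorem line_unique {m : ℕ} {f g : Fin m → Option S} {a b c d : S} (hab : pt S f a ≠ pt S f b)
    (h1 : pt S f a = pt S g c) (h2 : pt S f b = pt S g d) : f = g := by
  have hne : a ≠ b := fun h => hab (by rw [h])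
  have hne2 : c ≠ d := fun h => hab (by rw [h1, h2, h])
  funext i
  have e1 := congrFun h1 i
  have e2 := congrFun h2 i
  unfold pt at e1 e2
  cases hfi : f i with
  | none =>
    cases hgi : g i with
    | none => rfl
    | some v =>
      rw [hfi, hgi] at e1 e2
      simp only [Option.getD_none, Option.getD_some] at e1 e2
      exact absurd (e1.trans e2.symm) hne
  | some u =>
    cases hgi : g i with
    | none =>
      rw [hfi, hgi] at e1 e2
      simp only [Option.getD_none, Option.getD_some] at e1 e2
      exact absurd (e1.symm.trans e2) hne2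
    | some v =>
      rw [hfi, hgi] at e1
      simp only [Option.getD_some] at e1
      rw [e1]

theorem card_lines (m : ℕ) : (lines S m).card + S.card ^ m = (S.card + 1) ^ m := by
  have h1 : (lines S m).card +
      (Finset.univ.filter (fun f : Fin m → Option S => ¬ ∃ i, f i = none)).card =
      (Finset.univ : Finset (Fin m → Option S)).card :=
    Finset.card_filter_add_card_filter_not _
  have h2 : (Finset.univ : Finset (Fin m → Option S)).card = (S.card + 1) ^ m := by
    rw [Finset.card_univ, Fintype.card_fun, Fintype.card_option, Fintype.card_coe,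
      Fintype.card_fin]
  have h3 : (Finset.univ.filter (fun f : Fin m → Option S => ¬ ∃ i, f i = none)).card =
      S.card ^ m := by
    have h4 : (Finset.univ.filter (fun f : Fin m → Option S => ¬ ∃ i, f i = none)) =
        (Finset.univ : Finset (Fin m → S)).image (fun x i => some (x i)) := by
      ext f
      simp only [Finset.mem_filter, Finset.mem_univ, true_and, Finset.mem_image, not_exists]
      constructor
      · intro h
        refine ⟨fun i => (f i).get (Option.isSome_iff_ne_none.2 (h i)), ?_⟩
        funext i
        simp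
      · rintro ⟨x, rfl⟩ i
        simp
    rw [h4, Finset.card_image_of_injective, Finset.card_univ, Fintype.card_fun, Fintype.card_coe,
      Fintype.card_fin]
    intro x y hxy
    funext i
    have := congrFun hxy i
    simpa using this
  rw [h3, h2] at h1
  exact h1

theorem phi_pt (m D : ℕ) (f : Fin m → Option S) (a : S) :
    phi S m D (pt S f a) =
      (∑ k : Fin m, if f k = none then D ^ (k : ℕ) else 0) * (a : ℕ) +
      ∑ k : Fin m, D ^ (k : ℕ) * ((f k).elim 0 (fun s => (s : ℕ))) := by
  unfold phi pt
  rw [Finset.sum_mul, ← Finset.sum_add_distrib]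
  refine Finset.sum_congr rfl fun k _ => ?_
  cases hk : f k with
  | none => simp
  | some v => simp

end Cube

theorem numeric (n : ℕ) (hn : 1 ≤ n) :
    n ^ n ^ 2 * 2 ^ n < 4 * ((n + 1) ^ n ^ 2 - n ^ n ^ 2) := by
  have h1 : 2 * n ^ n ≤ (n + 1) ^ n := by
    have h2 : n ^ n + n * n ^ (n - 1) ≤ (n + 1) ^ n := by
      have h := Commute.add_pow (Commute.all n 1) n
      rw [h]
      have hsub : ({n - 1, n} : Finset ℕ) ⊆ Finset.range (n + 1) := by
        intro z hz
        simp only [Finset.mem_insert, Finset.mem_singleton] at hz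
        rw [Finset.mem_range]
        omega
      refine le_trans ?_ (Finset.sum_le_sum_of_subset hsub)
      rw [Finset.sum_pair (by omega)]
      have e1 : n.choose (n - 1) = n := by
        rw [Nat.choose_symm_of_eq_add (show n = (n - 1) + 1 by omega), Nat.choose_one_right]
      simp only [one_pow, mul_one, Nat.choose_self, e1, Nat.cast_id, Nat.cast_one]
      rw [Nat.mul_comm n]
      omega
    have e : n * n ^ (n - 1) = n ^ n := by
      rw [← pow_succ']
      congr 1
      omega
    rw [e] at h2
    omega
  have h2 : 2 ^ n * n ^ n ^ 2 ≤ (n + 1) ^ n ^ 2 := by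
    have : (2 * n ^ n) ^ n ≤ ((n + 1) ^ n) ^ n := Nat.pow_le_pow_left h1 n
    rw [mul_pow, ← pow_mul, ← pow_mul] at this
    rw [show n ^ 2 = n * n by ring]
    exact this
  have h3 : 0 < n ^ n ^ 2 := by positivity
  have h4 : 2 ≤ 2 ^ n := by
    calc 2 = 2 ^ 1 := by norm_num
      _ ≤ 2 ^ n := Nat.pow_le_pow_right (by norm_num) hn
  have h5 : 2 * n ^ n ^ 2 ≤ 2 ^ n * n ^ n ^ 2 := Nat.mul_le_mul_right _ h4
  have h6 : n ^ n ^ 2 * 2 ^ n = 2 ^ n * n ^ n ^ 2 := Nat.mul_comm _ _
  omega

/-- For every finite set `S` of `n ≥ 1` natural numbers, Maker (who moves first) has an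
`n ^ n ^ 2`-move strategy in the game on the natural numbers where he aims at a copy of `S`. -/
theorem result (n : ℕ) (hn : 1 ≤ n) (S : Finset ℕ) (hS : S.card = n) :
    MakerWins S (n ^ n ^ 2) ∅ ∅ := by
  obtain ⟨D, hD⟩ : ∃ D, ∀ s ∈ S, s < D := ⟨S.sup id + 1, fun s hs => by
    have := Finset.le_sup (f := id) hs
    simp only [id] at this
    omega⟩
  have hDpos : 0 < D := by
    have : S.Nonempty := by rw [← Finset.card_pos]; omega
    obtain ⟨s, hs⟩ := this
    exact lt_of_le_of_lt (Nat.zero_le _) (hD s hs)
  set m := n ^ 2 with hm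
  have hinj := phi_inj S m D hD
  set V : Finset ℕ := Finset.univ.image (phi S m D) with hV
  have hVcard : V.card = n ^ m := by
    rw [hV, Finset.card_image_of_injective _ hinj, Finset.card_univ, Fintype.card_fun,
      Fintype.card_coe, Fintype.card_fin, hS]
  refine makerWins_of_pot (lines S m) (lineSet S m D) S V n ?_ ?_ ?_ ?_ (n ^ m) ∅ ∅ ?_ ?_ ?_
  · intro f _ x hx
    unfold lineSet at hx
    rw [Finset.mem_image] at hx
    obtain ⟨a, -, rfl⟩ := hx
    exact Finset.mem_image_of_mem _ (Finset.mem_univ _)
  · intro f hf
    unfold lines at hf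
    rw [Finset.mem_filter] at hf
    have h := Finset.card_image_of_injective Finset.univ (hinj.comp (pt_inj S hf.2))
    rw [Finset.card_univ, Fintype.card_coe, hS] at h
    exact h
  · intro f hf M hM
    unfold lines at hf
    rw [Finset.mem_filter] at hf
    obtain ⟨i, hi⟩ := hf.2
    refine ⟨((∑ k : Fin m, if f k = none then D ^ (k : ℕ) else 0 : ℕ) : ℤ),
      ((∑ k : Fin m, D ^ (k : ℕ) * ((f k).elim 0 (fun s => (s : ℕ))) : ℕ) : ℤ), ?_, ?_⟩
    · have h1 : D ^ (i : ℕ) ≤ ∑ k : Fin m, if f k = none then D ^ (k : ℕ) else 0 := by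
        have := Finset.single_le_sum (f := fun k : Fin m => if f k = none then D ^ (k : ℕ) else 0)
          (fun k _ => Nat.zero_le _) (Finset.mem_univ i)
        simpa [hi] using this
      have h2 : 1 ≤ D ^ (i : ℕ) := Nat.one_le_pow _ _ hDpos
      exact_mod_cast le_trans h2 h1
    · intro s hs
      refine ⟨phi S m D (pt S f ⟨s, hs⟩), hM ?_, ?_⟩
      · unfold lineSet
        exact Finset.mem_image_of_mem _ (Finset.mem_univ _)
      · rw [phi_pt]
        push_cast
        rfl
  · intro x y hxy f hf g hg h1 h2 h3 h4
    unfold lines at hf hg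
    rw [Finset.mem_filter] at hf hg
    unfold lineSet at h1 h2 h3 h4
    rw [Finset.mem_image] at h1 h2 h3 h4
    obtain ⟨a, -, ha⟩ := h1
    obtain ⟨b, -, hb⟩ := h2
    obtain ⟨c, -, hc⟩ := h3
    obtain ⟨d, -, hd⟩ := h4
    refine line_unique S (a := a) (b := b) (c := c) (d := d) ?_
      (hinj (ha.trans hc.symm)) (hinj (hb.trans hd.symm))
    intro h
    apply hxy
    rw [← ha, ← hb, h]
  · rw [Finset.union_empty, Finset.sdiff_empty, hVcard]
  · exact Finset.disjoint_empty_left _
  · have hp : pot (lines S m) (lineSet S m D) ∅ ∅ = (lines S m).card := by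
      unfold pot
      simp
    rw [hp]
    have hc := card_lines S m
    rw [hS] at hc
    have := numeric n hn
    rw [← hm] at this
    omega

end Pool.Agent.Results.MP_3e1131_co.BoundedLength
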